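import Mathlib

set_option autoImplicit false

/-!
# Boolean-valued selection principles

`𝔹` is a complete Boolean algebra, thought of as `(ω, ∞)`-distributive, so that the Boolean-valued
universe `V^𝔹` has the same reals, the same Borel sets and the same countable sequences of them as
the ground model.  A Boolean-valued subset of a ground model set `α` is a function `X : α → 𝔹`.
The definitions below are the truth values in `𝔹` of the corresponding statements about `X`.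
-/

namespace Pool.Agent.H46.BorelPow

variable {𝔹 : Type} [CompleteBooleanAlgebra 𝔹] {α : Type}

/-- truth value of a ground model statement `P`: `⊤` if `P` holds and `⊥` otherwise -/
def tv (𝔹 : Type) [CompleteBooleanAlgebra 𝔹] (P : Prop) : 𝔹 := ⨆ _ : P, ⊤

/-- truth value of `X ⊆ U` -/
def bvSubset (X : α → 𝔹) (U : Set α) : 𝔹 := ⨅ x, (X x ⇨ tv 𝔹 (x ∈ U))

/-- truth value of: `{V m : m ∈ ℕ}` is a cover of `X` (its union contains `X`, but no member
contains `X`) -/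
def bvCover (X : α → 𝔹) (V : ℕ → Set α) : 𝔹 :=
  bvSubset X (⋃ m, V m) ⊓ ⨅ m, (bvSubset X (V m))ᶜ

/-- truth value of: `{V m : m ∈ ℕ}` is an ω-cover of `X` -/
def bvOmegaCover (X : α → 𝔹) (V : ℕ → Set α) : 𝔹 :=
  bvCover X V ⊓ ⨅ F : Finset α, ((⨅ x ∈ F, X x) ⇨ tv 𝔹 (∃ m, (↑F : Set α) ⊆ V m))

/-- truth value of the selection principle `S₁(𝔄, 𝔄)` for countable families of Borel sets, where
`A V` is the truth value of `{V m : m ∈ ℕ} ∈ 𝔄` -/
def bvS1 [MeasurableSpace α] (A : (ℕ → Set α) → 𝔹) : 𝔹 :=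
  ⨅ 𝒰 : {𝒰 : ℕ → ℕ → Set α // ∀ n m, MeasurableSet (𝒰 n m)},
    ((⨅ n, A (𝒰.1 n)) ⇨ ⨆ c : ℕ → ℕ, A (fun n => 𝒰.1 n (c n)))

/-- the Boolean-valued power `X ^ n` -/
def bvPower (X : ℝ → 𝔹) (n : ℕ) : (Fin n → ℝ) → 𝔹 := fun v => ⨅ i, X (v i)

/-- `(ω, ∞)`-distributivity: `V^𝔹` has no new countable sequences of ground model objects -/
def OmegaDistributive (𝔹 : Type) [CompleteBooleanAlgebra 𝔹] : Prop :=
  ∀ (ι : Type) (a : ℕ → ι → 𝔹), ⨅ n, ⨆ i, a n i = ⨆ f : ℕ → ι, ⨅ n, a n (f n)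

/-- sanity check: for `𝔹 = Prop` one gets the usual notion of inclusion -/
lemma bvSubset_prop (X U : Set α) : bvSubset (𝔹 := Prop) (fun x => x ∈ X) U ↔ X ⊆ U := by
  simp [bvSubset, tv, Set.subset_def]

/-- sanity check: for `𝔹 = Prop` one gets the usual notion of a cover -/
lemma bvCover_prop (X : Set α) (V : ℕ → Set α) : bvCover (𝔹 := Prop) (fun x => x ∈ X) V ↔
    X ⊆ (⋃ m, V m) ∧ ∀ m, ¬ X ⊆ V m := by
  simp only [bvCover, inf_Prop_eq, iInf_Prop_eq, compl_iff_not, bvSubset_prop]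

/-- sanity check: for `𝔹 = Prop` one gets the usual notion of an ω-cover -/
lemma bvOmegaCover_prop (X : Set α) (V : ℕ → Set α) :
    bvOmegaCover (𝔹 := Prop) (fun x => x ∈ X) V ↔
    (X ⊆ (⋃ m, V m) ∧ ∀ m, ¬ X ⊆ V m) ∧
      ∀ F : Finset α, (↑F : Set α) ⊆ X → ∃ m, (↑F : Set α) ⊆ V m := by
  simp only [bvOmegaCover, inf_Prop_eq, iInf_Prop_eq, bvCover_prop, tv]
  simp [Set.subset_def]

/-- sanity check: for `𝔹 = Prop` one gets the usual selection principle -/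
lemma bvS1_prop [MeasurableSpace α] (A : (ℕ → Set α) → Prop) : bvS1 (𝔹 := Prop) A ↔
    ∀ 𝒰 : ℕ → ℕ → Set α, (∀ n m, MeasurableSet (𝒰 n m)) → (∀ n, A (𝒰 n)) →
      ∃ c : ℕ → ℕ, A (fun n => 𝒰 n (c n)) := by
  simp [bvS1]

end Pool.Agent.H46.BorelPow
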