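import Pool.Agent.H46.BorelPow.Core
import Pool.Agent.H46.BorelPow.RO
import Pool.Agent.H46.BorelPow.BVDefs

set_option autoImplicit false

open Set Filter Topology
open scoped Cardinal

namespace Pool.Agent.H46.BorelPow

/-- index type of order type `ω₁` -/
abbrev I1 : Type := (ℵ₁ : Cardinal.{0}).ord.ToType

/-- tasks: a double sequence of Borel sets and an element of the Cantor space -/
abbrev Task := (ℕ → ℕ → {s : Set E // MeasurableSet s}) × (ℕ → Bool)

/-- data of a stage -/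
abbrev DD := Task × ((ℕ → ℕ) × E × E)

/-- the Borel sets of the task -/
def Uo (t : Task) : ℕ → ℕ → Set E := fun n m => (t.1 n m).1

/-- their open approximations -/
noncomputable def Oo (t : Task) : ℕ → ℕ → Set E := fun n m => Classical.choose ((t.1 n m).2.residualEq_isOpen)

lemma Oo_open (t : Task) (n m : ℕ) : IsOpen (Oo t n m) :=
  (Classical.choose_spec ((t.1 n m).2.residualEq_isOpen)).1

lemma Oo_eq (t : Task) (n m : ℕ) : Uo t n m =ᶠ[residual E] Oo t n m :=
  (Classical.choose_spec ((t.1 n m).2.residualEq_isOpen)).2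

/-- requirement at stage `α` of a run -/
def Rq (α : I1) (f : I1 → DD) : Prop :=
  Req (fun β => Uo (f β).1) (fun β => Oo (f β).1) (fun β => (f β).1.2) α (fun β => (f β).2) (f α).2

lemma Rq_congr {α : I1} {f f' : I1 → DD} (h : ∀ β ≤ α, f β = f' β) (hR : Rq α f) : Rq α f' := by
  have hα : f α = f' α := h α le_rfl
  obtain ⟨h1, h2, h3, h4⟩ := hR
  have hp : ∀ A : Finset I1, (∀ i ∈ A, i < α) →
      pts (fun β => (f β).2) A = pts (fun β => (f' β).2) A := fun A hA =>
    pts_congr (fun i hi => by rw [h i (hA i hi).le])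
  refine ⟨?_, ?_, ?_, ?_⟩
  · intro β hβ
    have := h1 β hβ
    simp only [← h β hβ, ← hα]
    exact this
  · simp only [← hα]
    exact h2
  · intro A hA Q
    have := h3 A hA Q
    simp only [← hα, ← hp A hA]
    exact this
  · intro β hβ A hA Q
    have := h4 β hβ A hA Q
    simp only [← h β hβ, ← hα, ← hp A hA]
    exact this

/-- countable runs -/
structure Run where
  /-- the length -/
  α : I1
  /-- the run (only the values below `α` matter) -/
  f : I1 → DD
  h : ∀ β < α, Rq β f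

instance : Preorder Run where
  le p q := p.α ≤ q.α ∧ ∀ β < p.α, q.f β = p.f β
  le_refl _ := ⟨le_rfl, fun _ _ => rfl⟩
  le_trans p q r h1 h2 := ⟨h1.1.trans h2.1, fun β hβ =>
    (h2.2 β (hβ.trans_le h1.1)).trans (h1.2 β hβ)⟩

lemma mk_Iio_I1 (α : I1) : #(Iio α) < ℵ₁ := by
  have := Cardinal.mk_Iio_lt α (by simp [I1])
  simpa [I1] using this

lemma aleph0_lt_aleph1 : (ℵ₀ : Cardinal.{0}) < ℵ₁ := Cardinal.aleph0_lt_aleph_one

lemma countable_Iio_I1 (α : I1) : (Iio α).Countable := by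
  have := mk_Iio_I1 α
  have h2 : #(Iio α) ≤ ℵ₀ := by
    have h3 : (ℵ₁ : Cardinal.{0}) = Order.succ ℵ₀ := Cardinal.succ_aleph0.symm
    exact Order.lt_succ_iff.1 (this.trans_eq h3)
  exact Cardinal.le_aleph0_iff_set_countable.1 h2

lemma uncountable_I1 : ¬ (univ : Set I1).Countable := by
  intro h
  have h1 : #(univ : Set I1) ≤ ℵ₀ := Cardinal.mk_le_aleph0_iff.2 h.to_subtype
  rw [Cardinal.mk_univ] at h1
  have h2 : #I1 = ℵ₁ := by simp [I1]
  rw [h2] at h1
  exact absurd h1 (not_le.2 aleph0_lt_aleph1)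

lemma exists_gt_seq (a : ℕ → I1) : ∃ b : I1, ∀ n, a n < b := by
  by_contra hcon
  push Not at hcon
  apply uncountable_I1
  have : (univ : Set I1) ⊆ ⋃ n, insert (a n) (Iio (a n)) := by
    intro b _
    obtain ⟨n, hn⟩ := hcon b
    rw [mem_iUnion]
    refine ⟨n, ?_⟩
    rcases hn.lt_or_eq with h | h
    · exact Or.inr h
    · exact Or.inl h
  exact (countable_iUnion fun n => (countable_Iio_I1 (a n)).insert _).mono this

/-- `Run` is σ-closed -/
lemma exists_upper (p : ℕ → Run) (hp : ∀ n, p n ≤ p (n + 1)) : ∃ q : Run, ∀ n, p n ≤ q := by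
  classical
  have hmono : ∀ n m, n ≤ m → p n ≤ p m := by
    intro n m hnm
    induction hnm with
    | refl => exact le_rfl
    | step _ ih => exact ih.trans (hp _)
  -- least upper bound of the lengths
  have hex : ∃ b : I1, ∀ n, (p n).α ≤ b := by
    obtain ⟨b, hb⟩ := exists_gt_seq (fun n => (p n).α)
    exact ⟨b, fun n => (hb n).le⟩
  let b : I1 := (wellFounded_lt (α := I1)).min {b | ∀ n, (p n).α ≤ b} hex
  have hb : ∀ n, (p n).α ≤ b := (wellFounded_lt (α := I1)).min_mem {b | ∀ n, (p n).α ≤ b} hex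
  have hb' : ∀ β < b, ∃ n, β < (p n).α := by
    intro β hβ
    by_contra hcon
    push Not at hcon
    exact (wellFounded_lt (α := I1)).not_lt_min {b | ∀ n, (p n).α ≤ b} hcon hβ
  let N : I1 → ℕ := fun β => if h : ∃ n, β < (p n).α then h.choose else 0
  have hN : ∀ β < b, β < (p (N β)).α := by
    intro β hβ
    have h := hb' β hβ
    simp only [N, dif_pos h]
    exact h.choose_spec
  let F : I1 → DD := fun β => (p (N β)).f β
  have hF : ∀ n, ∀ β < (p n).α, F β = (p n).f β := by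
    intro n β hβ
    have h1 := hN β (hβ.trans_le (hb n))
    simp only [F]
    rcases le_total n (N β) with h | h
    · exact (hmono _ _ h).2 β hβ
    · exact ((hmono _ _ h).2 β h1).symm
  refine ⟨⟨b, F, ?_⟩, fun n => ⟨hb n, hF n⟩⟩
  intro β hβ
  obtain ⟨n, hn⟩ := hb' β hβ
  exact Rq_congr (fun γ hγ => (hF n γ (hγ.trans_lt hn)).symm) ((p n).h β hn)

/-- one more stage -/
lemma exists_ext (p : Run) (t : Task) : ∃ q : Run, p ≤ q ∧ p.α < q.α ∧ (q.f p.α).1 = t := by
  classical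
  let f1 : I1 → DD := Function.update p.f p.α (t, (fun _ => 0, fun _ _ => false, fun _ _ => false))
  have hf1 : ∀ β < p.α, f1 β = p.f β := fun β hβ => Function.update_of_ne hβ.ne _ _
  have hf1' : (f1 p.α).1 = t := by simp [f1]
  obtain ⟨d, hd⟩ := exists_stage aleph0_lt_aleph1 MAk_aleph1 mk_Iio_I1
    (fun β => Uo (f1 β).1) (fun β => Oo (f1 β).1) (fun β => (f1 β).1.2)
    (fun β n m => Oo_open _ n m) (fun β n m => Oo_eq _ n m) p.α (fun β => (f1 β).2)
    (fun β hβ => Rq_congr (f := p.f) (f' := f1) (fun γ hγ => (hf1 γ (hγ.trans_lt hβ)).symm) (p.h β hβ))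
  let f2 : I1 → DD := Function.update p.f p.α (t, d)
  have hf2 : ∀ β < p.α, f2 β = p.f β := fun β hβ => Function.update_of_ne hβ.ne _ _
  have hf2' : f2 p.α = (t, d) := by simp [f2]
  obtain ⟨b, hb⟩ := exists_gt_seq (fun _ => p.α)
  have hb0 : p.α < b := hb 0
  let b' : I1 := (wellFounded_lt (α := I1)).min {b | p.α < b} ⟨b, hb0⟩
  have hb1 : p.α < b' := (wellFounded_lt (α := I1)).min_mem {b | p.α < b} ⟨b, hb0⟩
  have hb2 : ∀ β < b', β ≤ p.α := by
    intro β hβ
    by_contra hcon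
    exact (wellFounded_lt (α := I1)).not_lt_min {b | p.α < b} (not_le.1 hcon) hβ
  refine ⟨⟨b', f2, ?_⟩, ⟨hb1.le, hf2⟩, hb1, by simp only [hf2']⟩
  intro β hβ
  rcases (hb2 β hβ).lt_or_eq with h | rfl
  · exact Rq_congr (fun γ hγ => (hf2 γ (hγ.trans_lt h)).symm) (p.h β h)
  · -- the new stage
    have hd' := Req_congr _ _ _ _ _ (fun β => (f2 β).2) _ (fun γ hγ => by
      rw [hf1 γ hγ, hf2 γ hγ]) hd
    obtain ⟨h1, h2, h3, h4⟩ := hd'
    have e : ∀ γ ≤ p.α, (f1 γ).1 = (f2 γ).1 := by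
      intro γ hγ
      rcases hγ.lt_or_eq with h | rfl
      · rw [hf1 γ h, hf2 γ h]
      · rw [hf1', hf2']
    have e2 : (f2 p.α).2 = d := by rw [hf2']
    refine ⟨?_, ?_, ?_, ?_⟩
    · intro γ hγ
      have := h1 γ hγ
      simp only [e γ hγ] at this
      rw [e2]; exact this
    · simp only [e _ le_rfl] at h2
      rw [e2]; exact h2
    · intro A hA Q
      have := h3 A hA Q
      simp only [e _ le_rfl] at this
      rw [e2]; exact this
    · intro γ hγ A hA Q
      have := h4 γ hγ A hA Q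
      simp only [e γ hγ] at this
      rw [e2]; exact this

/-- the points occurring in a run -/
def supp (p : Run) : Set E := {x | ∃ β < p.α, x = (p.f β).2.2.1 ∨ x = (p.f β).2.2.2}

lemma supp_mono {p q : Run} (h : p ≤ q) : supp p ⊆ supp q := by
  rintro x ⟨β, hβ, hx⟩
  refine ⟨β, hβ.trans_le h.1, ?_⟩
  rw [h.2 β hβ]
  exact hx

lemma mem_tv {P : Prop} {p : Run} : p ∈ (tv (RO Run) P).S ↔ P := by
  unfold tv
  rw [RO.mem_iSup]
  constructor
  · intro h
    obtain ⟨r, -, hP, -⟩ := h p le_rfl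
    exact hP
  · intro hP q _
    exact ⟨q, le_rfl, hP, trivial⟩

/-- `sp` is a support function for the Boolean-valued set `Y` -/
structure IsSupp {α : Type} (Y : α → RO Run) (sp : Run → Set α) : Prop where
  mono : ∀ p q, p ≤ q → sp p ⊆ sp q
  mem : ∀ p x, x ∈ sp p → p ∈ (Y x).S
  dense : ∀ p x, p ∈ (Y x).S → ∃ q, p ≤ q ∧ x ∈ sp q

namespace IsSupp

variable {α : Type} {Y : α → RO Run} {sp : Run → Set α}

lemma finset (h : IsSupp Y sp) (F : Finset α) (p : Run) (hp : ∀ x ∈ F, p ∈ (Y x).S) :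
    ∃ q, p ≤ q ∧ (↑F : Set α) ⊆ sp q := by
  classical
  induction F using Finset.induction_on with
  | empty => exact ⟨p, le_rfl, by simp⟩
  | insert a F _ ih =>
    obtain ⟨q, hq, hqF⟩ := ih (fun x hx => hp x (Finset.mem_insert_of_mem hx))
    obtain ⟨r, hr, hra⟩ := h.dense q a ((Y a).isReg.up (hp a (Finset.mem_insert_self _ _)) hq)
    refine ⟨r, hq.trans hr, ?_⟩
    intro x hx
    rw [Finset.coe_insert] at hx
    rcases hx with rfl | hx
    · exact hra
    · exact h.mono _ _ hr (hqF hx)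

lemma mem_bvSubset (h : IsSupp Y sp) {U : Set α} {p : Run} :
    p ∈ (bvSubset Y U).S ↔ ∀ q, p ≤ q → sp q ⊆ U := by
  unfold bvSubset
  simp only [RO.mem_iInf, RO.mem_himp, mem_tv]
  constructor
  · intro h1 q hq x hx
    exact h1 x q hq (h.mem q x hx)
  · intro h1 x q hq hx
    obtain ⟨r, hr, hrx⟩ := h.dense q x hx
    exact h1 r (hq.trans hr) hrx

lemma mem_bvSubset_compl (h : IsSupp Y sp) {U : Set α} {p : Run} :
    p ∈ ((bvSubset Y U)ᶜ).S ↔ ∀ q, p ≤ q → ∃ r, q ≤ r ∧ ∃ x ∈ sp r, x ∉ U := by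
  rw [RO.mem_compl]
  simp only [h.mem_bvSubset]
  refine forall_congr' fun q => forall_congr' fun _ => ?_
  push Not
  refine exists_congr fun r => and_congr_right fun _ => ?_
  exact Set.not_subset

lemma mem_bvOmega (h : IsSupp Y sp) {V : ℕ → Set α} {p : Run} :
    p ∈ (⨅ F : Finset α, ((⨅ x ∈ F, Y x) ⇨ tv (RO Run) (∃ m, (↑F : Set α) ⊆ V m))).S ↔
      ∀ q, p ≤ q → ∀ F : Set α, F.Finite → F ⊆ sp q → ∃ m, F ⊆ V m := by
  simp only [RO.mem_iInf, RO.mem_himp, mem_tv]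
  constructor
  · intro h1 q hq F hF hFs
    obtain ⟨F, rfl⟩ := hF.exists_finset_coe
    exact h1 F q hq (fun x hx => h.mem q x (hFs hx))
  · intro h1 F q hq hF
    obtain ⟨r, hr, hrF⟩ := h.finset F q hF
    exact h1 r (hq.trans hr) F F.finite_toSet hrF

lemma power {X : ℝ → RO Run} {sp : Run → Set ℝ} (h : IsSupp X sp) (n : ℕ) :
    IsSupp (bvPower X n) (fun p => {v | ∀ i, v i ∈ sp p}) where
  mono p q hpq v hv := fun i => h.mono p q hpq (hv i)
  mem p v hv := by
    unfold bvPower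
    rw [RO.mem_iInf]
    exact fun i => h.mem p _ (hv i)
  dense p v hv := by
    unfold bvPower at hv
    rw [RO.mem_iInf] at hv
    obtain ⟨q, hq, hqF⟩ := h.finset (Finset.univ.image v) p (by
      intro x hx
      obtain ⟨i, -, rfl⟩ := Finset.mem_image.1 hx
      exact hv i)
    exact ⟨q, hq, fun i => hqF (by simp)⟩

end IsSupp

/-- the generic set of reals, coded through a Borel isomorphism `e` -/
def XB (e : ℝ ≃ᵐ E) (x : ℝ) : RO Run := ⟨reg {p | e x ∈ supp p}, isReg_reg _⟩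

lemma isSupp_XB (e : ℝ ≃ᵐ E) : IsSupp (XB e) (fun p => e ⁻¹' (supp p)) where
  mono p q h := preimage_mono (supp_mono h)
  mem p x hx := fun q hq => ⟨q, le_rfl, supp_mono hq hx⟩
  dense p x hx := hx p le_rfl

lemma omegaDistributive : OmegaDistributive (RO Run) := by
  intro ι a
  refine le_antisymm ?_ ?_
  · intro p hp
    rw [RO.mem_iInf] at hp
    rw [RO.mem_iSup]
    intro q hq
    have hstep : ∀ n (r : {r : Run // p ≤ r}), ∃ s : {s : Run // p ≤ s}, r.1 ≤ s.1 ∧ ∃ i, s.1 ∈ (a n i).S := by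
      intro n r
      have h1 := hp n
      rw [RO.mem_iSup] at h1
      obtain ⟨s, hs, i, hi⟩ := h1 r.1 r.2
      exact ⟨⟨s, r.2.trans hs⟩, hs, i, hi⟩
    choose s hs i hi using hstep
    let u : ℕ → {r : Run // p ≤ r} := fun n => Nat.rec ⟨q, hq⟩ (fun n r => s n r) n
    have hu : ∀ n, u (n + 1) = s n (u n) := fun n => rfl
    obtain ⟨b, hb⟩ := exists_upper (fun n => (u n).1) (fun n => by
      simp only [hu]; exact hs n (u n))
    refine ⟨b, hb 0, fun n => i n (u n), ?_⟩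
    rw [RO.mem_iInf]
    intro n
    exact (a n _).isReg.up (hi n (u n)) (by have := hb (n + 1); simpa only [hu] using this)
  · exact iSup_le fun f => le_iInf fun n => (iInf_le _ n).trans (le_iSup (a n) (f n))

instance : Nonempty Run := by
  have hne : Nonempty I1 := by
    have h2 : #I1 = ℵ₁ := by simp [I1]
    rw [← Cardinal.mk_ne_zero_iff, h2]
    exact (Cardinal.aleph_pos 1).ne'
  let b : I1 := (wellFounded_lt (α := I1)).min univ ⟨Classical.arbitrary I1, mem_univ _⟩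
  refine ⟨⟨b, fun _ => ((fun _ _ => ⟨∅, MeasurableSet.empty⟩, fun _ => false),
    (fun _ => 0, fun _ _ => false, fun _ _ => false)), ?_⟩⟩
  intro β hβ
  exact absurd hβ ((wellFounded_lt (α := I1)).not_lt_min univ (mem_univ β))

lemma bv_S1Omega (e : ℝ ≃ᵐ E) : bvS1 (bvOmegaCover (XB e)) = ⊤ := by
  classical
  have hsupp := isSupp_XB e
  rw [RO.eq_top_iff']
  intro p0
  unfold bvS1
  rw [RO.mem_iInf]
  rintro ⟨𝒰, h𝒰⟩
  rw [RO.mem_himp]
  intro p _ hp
  rw [RO.mem_iInf] at hp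
  rw [RO.mem_iSup]
  intro q hq
  let t : Task := (fun n m => ⟨e.symm ⁻¹' (𝒰 n m), e.symm.measurable (h𝒰 n m)⟩, fun _ => false)
  obtain ⟨r, hr, hr1, hr2⟩ := exists_ext q t
  have hUo : Uo (r.f q.α).1 = fun n m => e.symm ⁻¹' (𝒰 n m) := by rw [hr2]; rfl
  refine ⟨r, hr, (r.f q.α).2.1, ?_⟩
  have hω : ∀ s, r ≤ s → ∀ F : Set ℝ, F.Finite → F ⊆ e ⁻¹' (supp s) →
      ∃ n, F ⊆ 𝒰 n ((r.f q.α).2.1 n) := by
    intro s hs F hF hFs
    have hfq : s.f q.α = r.f q.α := hs.2 _ hr1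
    obtain ⟨A, hA, hA'⟩ : ∃ A : Finset I1, (∀ i ∈ A, i < s.α) ∧
        e '' F ⊆ pts (fun β => (s.f β).2) A := by
      have hsel : ∀ x ∈ F, ∃ β < s.α, e x = (s.f β).2.2.1 ∨ e x = (s.f β).2.2.2 := fun x hx => hFs hx
      have hne : Nonempty I1 := ⟨q.α⟩
      choose! a ha using hsel
      refine ⟨hF.toFinset.image a, ?_, ?_⟩
      · intro i hi
        obtain ⟨x, hx, rfl⟩ := Finset.mem_image.1 hi
        exact (ha x (hF.mem_toFinset.1 hx)).1
      · rintro _ ⟨x, hx, rfl⟩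
        exact ⟨a x, Finset.mem_image.2 ⟨x, hF.mem_toFinset.2 hx, rfl⟩, (ha x hx).2⟩
    have hptsfin : (pts (fun β => (s.f β).2) A).Finite := by
      have : pts (fun β => (s.f β).2) A = ⋃ i ∈ A, {(s.f i).2.2.1, (s.f i).2.2.2} := by
        ext x; simp [pts]
      rw [this]
      exact Set.Finite.biUnion A.finite_toSet fun i _ => by simp
    have hcons : cons (Uo (s.f q.α).1) (Oo (s.f q.α).1) (pts (fun β => (s.f β).2) A) ∅ := by
      intro n
      have hpn := hp n
      unfold bvOmegaCover at hpn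
      rw [RO.mem_inf, hsupp.mem_bvOmega] at hpn
      obtain ⟨m, hm⟩ := hpn.2 s ((hq.trans hr).trans hs) (e ⁻¹' (pts (fun β => (s.f β).2) A))
        (hptsfin.preimage e.injective.injOn) (by
          rintro x ⟨i, hi, hx⟩
          exact ⟨i, hA i hi, hx⟩)
      refine ⟨m, ?_, fun q hq => by simp at hq⟩
      rw [hfq, hUo]
      intro x hx
      have : e.symm x ∈ 𝒰 n m := hm (by simpa using hx)
      exact this
    obtain ⟨n, hn, -⟩ := inv_of_req (fun β => Uo (s.f β).1) (fun β => Oo (s.f β).1)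
      (fun β => (s.f β).1.2) (fun β => (s.f β).2) q.α A (s.h q.α (hr1.trans_le hs.1))
      (fun i hi _ => s.h i (hA i hi)) ∅ hcons
    refine ⟨n, fun x hx => ?_⟩
    have := hn (hA' ⟨x, hx, rfl⟩)
    simp only [hfq, hUo] at this
    simpa using this
  unfold bvOmegaCover bvCover
  rw [RO.mem_inf, RO.mem_inf]
  refine ⟨⟨?_, ?_⟩, ?_⟩
  · rw [hsupp.mem_bvSubset]
    intro s hs x hx
    obtain ⟨n, hn⟩ := hω s hs {x} (finite_singleton x) (by simpa using hx)
    exact mem_iUnion.2 ⟨n, hn rfl⟩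
  · rw [RO.mem_iInf]
    intro n
    have hpn := hp n
    unfold bvOmegaCover bvCover at hpn
    rw [RO.mem_inf, RO.mem_inf, RO.mem_iInf] at hpn
    exact (RO.isReg _).up (hpn.1.2 _) (hq.trans hr)
  · rw [hsupp.mem_bvOmega]
    exact hω

lemma bv_not_S1 (e : ℝ ≃ᵐ E) (n : ℕ) (hn : 2 ≤ n) : bvS1 (bvCover (bvPower (XB e) n)) = ⊥ := by
  classical
  have hsupp := (isSupp_XB e).power n
  rw [RO.eq_bot_iff']
  intro p hp
  let a : Fin n := ⟨0, by omega⟩
  let b : Fin n := ⟨1, by omega⟩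
  let bit : ℕ → Bool := fun m => decide (m ≠ 0)
  let 𝒰 : ℕ → ℕ → Set (Fin n → ℝ) := fun k m => {v | L (e (v a), e (v b)) k = bit m}
  have h𝒰 : ∀ k m, MeasurableSet (𝒰 k m) := by
    intro k m
    have h1 : Measurable (fun v : Fin n → ℝ => L (e (v a), e (v b)) k) :=
      (measurable_pi_apply k).comp (measurable_L.comp (by fun_prop))
    exact h1 (measurableSet_singleton (bit m))
  -- generic pairs
  have hgen : ∀ (q : Run) (g : ℕ → Bool), ∃ r, q ≤ r ∧ ∃ v : Fin n → ℝ, (∀ i, v i ∈ e ⁻¹' (supp r)) ∧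
      L (e (v a), e (v b)) = g := by
    intro q g
    obtain ⟨r, hr, hr1, hr2⟩ := exists_ext q (fun _ _ => ⟨∅, MeasurableSet.empty⟩, g)
    refine ⟨r, hr, fun i => if i.1 = 0 then e.symm (r.f q.α).2.2.1 else e.symm (r.f q.α).2.2.2,
      ?_, ?_⟩
    · intro i
      refine ⟨q.α, hr1, ?_⟩
      by_cases hi : i.1 = 0
      · left; simp [hi]
      · right; simp [hi]
    · have h1 := (r.h q.α hr1).2.1
      have h2 : (r.f q.α).1.2 = g := by rw [hr2]
      simp only [h2] at h1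
      have h3 := L_eq (z := ((r.f q.α).2.2.1, (r.f q.α).2.2.2)) h1
      simpa [a, b] using h3
  unfold bvS1 at hp
  rw [RO.mem_iInf] at hp
  have h1 := hp ⟨𝒰, h𝒰⟩
  rw [RO.mem_himp] at h1
  have h2 := h1 p le_rfl (by
    rw [RO.mem_iInf]
    intro k
    unfold bvCover
    rw [RO.mem_inf]
    constructor
    · rw [hsupp.mem_bvSubset]
      intro q _ v _
      rw [mem_iUnion]
      by_cases hL : L (e (v a), e (v b)) k = true
      · exact ⟨1, by simp [𝒰, bit, hL]⟩
      · exact ⟨0, by simpa [𝒰, bit] using hL⟩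
    · rw [RO.mem_iInf]
      intro m
      rw [hsupp.mem_bvSubset_compl]
      intro q _
      obtain ⟨r, hr, v, hv, hL⟩ := hgen q (fun _ => !(bit m))
      refine ⟨r, hr, v, hv, ?_⟩
      simp only [𝒰, mem_ofPred_eq, hL]
      cases bit m <;> simp)
  rw [RO.mem_iSup] at h2
  obtain ⟨q, -, c, hq⟩ := h2 p le_rfl
  unfold bvCover at hq
  rw [RO.mem_inf, hsupp.mem_bvSubset] at hq
  obtain ⟨r, hr, v, hv, hL⟩ := hgen q (fun k => !(bit (c k)))
  have h3 := hq.1 r hr hv
  rw [mem_iUnion] at h3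
  obtain ⟨k, hk⟩ := h3
  simp only [𝒰, mem_ofPred_eq, hL] at hk
  cases h4 : bit (c k) <;> simp [h4] at hk

theorem bv_main : ∃ (𝔹 : Type) (_ : CompleteBooleanAlgebra 𝔹), Nontrivial 𝔹 ∧ OmegaDistributive 𝔹 ∧
    ∃ X : ℝ → 𝔹, bvS1 (bvOmegaCover X) = ⊤ ∧ ∀ n, 2 ≤ n → bvS1 (bvCover (bvPower X n)) = ⊥ := by
  have hE : ¬ Countable E := by
    have h2 : #E = 𝔠 := by simp [E]
    intro h
    have h1 : #E ≤ ℵ₀ := Cardinal.mk_le_aleph0_iff.2 h
    rw [h2] at h1
    exact absurd h1 (not_le.2 Cardinal.aleph0_lt_continuum)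
  have hR : ¬ Countable ℝ := by
    intro h
    have h1 : #ℝ ≤ ℵ₀ := Cardinal.mk_le_aleph0_iff.2 h
    rw [Cardinal.mk_real] at h1
    exact absurd h1 (not_le.2 Cardinal.aleph0_lt_continuum)
  let e : ℝ ≃ᵐ E := PolishSpace.measurableEquivOfNotCountable hR hE
  refine ⟨RO Run, inferInstance, ⟨⊤, ⊥, ?_⟩, omegaDistributive, XB e, bv_S1Omega e,
    fun n hn => bv_not_S1 e n hn⟩
  intro h
  have h1 : (Classical.arbitrary Run) ∈ (⊤ : RO Run).S := trivial
  rw [h] at h1
  exact h1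

end Pool.Agent.H46.BorelPow
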