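import Pool.Agent.H46.BorelPow.Defs

set_option autoImplicit false

/-!
# A set of reals with `S₁(ℬ_Ω, ℬ_Ω)` whose square fails `S₁(ℬ, ℬ)` (and even `S_fin(ℬ, ℬ)`)

Under the continuum hypothesis, or just under Martin's axiom for countable posets (equivalently
`cov(M) = 𝔠`), there is a set of reals `X` satisfying `S₁(ℬ_Ω, ℬ_Ω)` such that for every `n ≥ 2`
the power `X ^ n` has a Borel image equal to the whole Baire space; hence `X ^ n` satisfies neither
`S₁(ℬ, ℬ)` nor `S_fin(ℬ, ℬ)`.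

Idea of the construction. We work in the Cantor space `E` of `0-1` matrices indexed by `ℕ × ℕ`.
By transfinite recursion of length `𝔠` we choose pairs `(x_α, y_α)` and selectors `c_α`.  Each of
`x_α`, `y_α` is Cohen generic over what happened before, but the pair is not: for every `k` the
`k`-th columns satisfy `lim_j (x_α + y_α)(k, j) = g_α(k)`, where `g_α` runs over all elements of
`2^ω`.  Membership of the points in the Borel sets treated so far is decided by finite parts, and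
the promise about the limits of the columns `k < n` is also a finite object; this makes it possible
to diagonalise against every sequence of countable Borel ω-covers.  The Borel map
`(x, y) ↦ (limsup_j (x + y)(k, j))_k` maps `X × X` onto `2^ω`.
-/

open Set Filter Topology
open scoped Cardinal

namespace Pool.Agent.H46.BorelPow

/-- the Cantor space of `ℕ × ℕ` matrices -/
abbrev E := ℕ → ℕ → Bool

/-- finite conditions -/
abbrev Cond := ℕ × Finset (ℕ × ℕ) × Finset (ℕ × ℕ) × Finset ℕ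

/-- closed set of pairs obeying the condition -/
def P (q : Cond) : Set (E × E) :=
  {z | (∀ k < q.1, ∀ j < q.1, (z.1 k j = true ↔ (k, j) ∈ q.2.1) ∧ (z.2 k j = true ↔ (k, j) ∈ q.2.2.1)) ∧
    ∀ k < q.1, ∀ j, q.1 ≤ j → (xor (z.1 k j) (z.2 k j) = true ↔ k ∈ q.2.2.2)}

/-- truncation of a pair at level `N` with promise `g` -/
def trunc (z : E × E) (N : ℕ) (g : ℕ → Bool) : Cond :=
  (N, (Finset.range N ×ˢ Finset.range N).filter (fun p => z.1 p.1 p.2 = true),
    (Finset.range N ×ˢ Finset.range N).filter (fun p => z.2 p.1 p.2 = true),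
    (Finset.range N).filter (fun k => g k = true))

/-- the condition is compatible with `g` -/
def Comp (g : ℕ → Bool) (q : Cond) : Prop := ∀ k < q.1, (k ∈ q.2.2.2 ↔ g k = true)

lemma comp_trunc (z : E × E) (N : ℕ) (g : ℕ → Bool) : Comp g (trunc z N g) := by
  intro k hk
  simp only [trunc] at hk ⊢
  simp [hk]

lemma mem_P_trunc {z w : E × E} {N : ℕ} {g : ℕ → Bool} (h : w ∈ P (trunc z N g)) :
    (∀ k < N, ∀ j < N, w.1 k j = z.1 k j ∧ w.2 k j = z.2 k j) ∧
    ∀ k < N, ∀ j, N ≤ j → xor (w.1 k j) (w.2 k j) = g k := by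
  obtain ⟨h1, h2⟩ := h
  simp only [trunc] at h1 h2
  constructor
  · intro k hk j hj
    obtain ⟨ha, hb⟩ := h1 k hk j hj
    simp only [Finset.mem_filter, Finset.mem_product, Finset.mem_range, hk, hj, true_and, and_self] at ha hb
    exact ⟨Bool.eq_iff_iff.2 ha, Bool.eq_iff_iff.2 hb⟩
  · intro k hk j hj
    have := h2 k hk j hj
    simp only [Finset.mem_filter, Finset.mem_range, hk, true_and] at this
    exact Bool.eq_iff_iff.2 this

lemma P_trunc_nonempty (z : E × E) (N : ℕ) (g : ℕ → Bool) : (P (trunc z N g)).Nonempty := by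
  refine ⟨(z.1, fun k j => if k < N ∧ N ≤ j then xor (z.1 k j) (g k) else z.2 k j), ?_, ?_⟩
  · intro k hk j hj
    simp only [trunc] at hk hj ⊢
    have : ¬ (N ≤ j) := not_le.2 hj
    simp [hk, hj, this]
  · intro k hk j hj
    simp only [trunc] at hk hj ⊢
    simp [hk, hj]

lemma P_trunc_subset {g : ℕ → Bool} {q : Cond} (hq : Comp g q) {z : E × E} (hz : z ∈ P q) {N : ℕ}
    (hN : q.1 ≤ N) : P (trunc z N g) ⊆ P q := by
  intro w hw
  obtain ⟨h1, h2⟩ := mem_P_trunc hw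
  refine ⟨?_, ?_⟩
  · intro k hk j hj
    obtain ⟨ha, hb⟩ := h1 k (hk.trans_le hN) j (hj.trans_le hN)
    rw [ha, hb]
    exact hz.1 k hk j hj
  · intro k hk j hj
    rcases lt_or_ge j N with hjN | hjN
    · obtain ⟨ha, hb⟩ := h1 k (hk.trans_le hN) j hjN
      rw [ha, hb]
      exact hz.2 k hk j hj
    · rw [h2 k (hk.trans_le hN) j hjN]
      exact (hq k hk).symm

lemma exists_box {W : Set (E × E)} (hW : IsOpen W) {z : E × E} (hz : z ∈ W) :
    ∃ N : ℕ, ∀ w : E × E, (∀ k < N, ∀ j < N, w.1 k j = z.1 k j ∧ w.2 k j = z.2 k j) → w ∈ W := by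
  by_contra hcon
  push Not at hcon
  choose w hw hwW using hcon
  have h1 : Tendsto (fun N => (w N).1) atTop (𝓝 z.1) := by
    rw [tendsto_pi_nhds]; intro k
    rw [tendsto_pi_nhds]; intro j
    refine tendsto_const_nhds.congr' ?_
    filter_upwards [eventually_gt_atTop k, eventually_gt_atTop j] with N h1 h2
    exact ((hw N k h1 j h2).1).symm
  have h2 : Tendsto (fun N => (w N).2) atTop (𝓝 z.2) := by
    rw [tendsto_pi_nhds]; intro k
    rw [tendsto_pi_nhds]; intro j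
    refine tendsto_const_nhds.congr' ?_
    filter_upwards [eventually_gt_atTop k, eventually_gt_atTop j] with N h1 h2
    exact ((hw N k h1 j h2).2).symm
  have h3 : Tendsto w atTop (𝓝 z) := by
    have := h1.prodMk_nhds h2
    simpa using this
  have h4 : ∀ᶠ N in atTop, w N ∈ W := h3 (hW.mem_nhds hz)
  obtain ⟨N, hN⟩ := h4.exists
  exact hwW N hN

lemma isClosed_P (q : Cond) : IsClosed (P q) := by
  have hc1 : ∀ k j, Continuous (fun z : E × E => z.1 k j) := fun k j => by fun_prop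
  have hc2 : ∀ k j, Continuous (fun z : E × E => z.2 k j) := fun k j => by fun_prop
  have hcx : ∀ k j, Continuous (fun z : E × E => xor (z.1 k j) (z.2 k j)) := fun k j =>
    (continuous_of_discreteTopology (f := fun p : Bool × Bool => xor p.1 p.2)).comp
      ((hc1 k j).prodMk (hc2 k j))
  have key : ∀ (f : E × E → Bool) (_ : Continuous f) (p : Prop), IsClosed {z | f z = true ↔ p} := by
    intro f hf p
    by_cases hp : p
    · simp only [hp, iff_true]
      exact isClosed_eq hf continuous_const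
    · simp only [hp, iff_false, Bool.not_eq_true]
      exact isClosed_eq hf continuous_const
  have : P q = (⋂ k, ⋂ (_ : k < q.1), ⋂ j, ⋂ (_ : j < q.1), ({z : E × E | z.1 k j = true ↔ (k, j) ∈ q.2.1} ∩
      {z : E × E | z.2 k j = true ↔ (k, j) ∈ q.2.2.1})) ∩
      ⋂ k, ⋂ (_ : k < q.1), ⋂ j, ⋂ (_ : q.1 ≤ j), {z : E × E | xor (z.1 k j) (z.2 k j) = true ↔ k ∈ q.2.2.2} := by
    ext z
    simp [P]
  rw [this]
  refine IsClosed.inter ?_ ?_
  · refine isClosed_iInter fun k => isClosed_iInter fun _ => isClosed_iInter fun j => isClosed_iInter fun _ => ?_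
    exact (key _ (hc1 k j) _).inter (key _ (hc2 k j) _)
  · refine isClosed_iInter fun k => isClosed_iInter fun _ => isClosed_iInter fun j => isClosed_iInter fun _ => ?_
    exact key _ (hcx k j) _

/-- fewer than `θ` many cofinal subsets of a countable preorder can be met -/
def MAk (θ : Cardinal.{0}) : Prop :=
  ∀ (Q : Type) [Preorder Q] [Countable Q] [Nonempty Q] (ι : Type) (_ : #ι < θ)
    (D : ι → Order.Cofinal Q), ∃ I : Order.Ideal Q, ∀ i, ∃ q ∈ (D i).carrier, q ∈ I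

lemma MAk_aleph1 : MAk ℵ₁ := by
  intro Q _ _ _ ι hι D
  have : Countable ι := by
    rw [← Cardinal.mk_le_aleph0_iff]
    rw [← Cardinal.succ_aleph0] at hι
    exact Order.lt_succ_iff.1 hι
  have := Encodable.ofCountable ι
  let q0 : Q := Classical.arbitrary Q
  refine ⟨Order.idealOfCofinals q0 D, fun i => ?_⟩
  obtain ⟨q, hq, hq'⟩ := Order.cofinal_meets_idealOfCofinals q0 D i
  exact ⟨q, hq, hq'⟩

lemma maCountable_of_CH (h : (ℵ₁ : Cardinal.{0}) = 𝔠) : MACountable := by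
  intro Q _ _ _ ι hι D
  rw [← h] at hι
  exact MAk_aleph1 Q ι hι D


/-- conditions compatible with `g`, ordered by reverse inclusion of the sets `P q` -/
structure GCond (g : ℕ → Bool) where
  /-- the condition -/
  q : Cond
  comp : Comp g q
  ne : (P q).Nonempty

instance (g : ℕ → Bool) : Preorder (GCond g) where
  le q r := P r.q ⊆ P q.q
  le_refl _ := subset_rfl
  le_trans _ _ _ h1 h2 := h2.trans h1

instance (g : ℕ → Bool) : Countable (GCond g) := by
  refine Function.Injective.countable (f := fun q : GCond g => q.q) ?_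
  rintro ⟨a, _, _⟩ ⟨b, _, _⟩ h
  simpa using h

lemma exists_pair {θ : Cardinal.{0}} (hθ : ℵ₀ < θ) (hMA : MAk θ) (g : ℕ → Bool) {ι : Type}
    (hι : #ι < θ) (W : ι → Set (E × E))
    (hW : ∀ i, IsOpen (W i)) {κ : Type} (hκ : #κ < θ) (D : κ → Set E) (hDo : ∀ i, IsOpen (D i))
    (hDd : ∀ i, Dense (D i)) :
    ∃ z : E × E, (∀ k, ∃ h, ∀ j ≥ h, xor (z.1 k j) (z.2 k j) = g k) ∧
      (∀ i, z.1 ∈ D i ∧ z.2 ∈ D i) ∧
      ∀ i, z ∈ W i ∨ ∃ q : Cond, z ∈ P q ∧ W i ∩ P q = ∅ := by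
  classical
  -- the poset
  let Q := GCond g
  have hle : ∀ q r : Q, q ≤ r ↔ P r.1 ⊆ P q.1 := fun q r => Iff.rfl
  let z0 : E × E := (fun _ _ => false, fun _ _ => false)
  have hne : Nonempty Q := ⟨⟨trunc z0 0 g, comp_trunc _ _ _, P_trunc_nonempty _ _ _⟩⟩
  -- extension lemma
  have hext : ∀ (q : Q) (O : Set (E × E)), IsOpen O → (O ∩ P q.1).Nonempty → ∀ N,
      ∃ r : Q, q ≤ r ∧ N ≤ r.1.1 ∧ P r.1 ⊆ O := by
    rintro q O hO ⟨z, hzO, hzq⟩ N
    obtain ⟨M, hM⟩ := exists_box hO hzO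
    refine ⟨⟨trunc z (max N (max M q.1.1)) g, comp_trunc _ _ _, P_trunc_nonempty _ _ _⟩, ?_, ?_, ?_⟩
    · rw [hle]
      exact P_trunc_subset q.2 hzq (le_max_of_le_right (le_max_right _ _))
    · exact le_max_left _ _
    · intro w hw
      obtain ⟨h1, -⟩ := mem_P_trunc hw
      refine hM w fun k hk j hj => h1 k (lt_of_lt_of_le hk ?_) j (lt_of_lt_of_le hj ?_)
      · exact le_max_of_le_right (le_max_left _ _)
      · exact le_max_of_le_right (le_max_left _ _)
  -- dense sets of levels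
  let DN : ℕ → Order.Cofinal Q := fun N => ⟨{r | N ≤ r.1.1}, fun q => by
    obtain ⟨r, h1, h2, -⟩ := hext q univ isOpen_univ (by simpa using q.3) N
    exact ⟨r, h2, h1⟩⟩
  let DW : Set (E × E) → Order.Cofinal Q := fun O =>
    if hO : IsOpen O then ⟨{r | P r.1 ⊆ O ∨ O ∩ P r.1 = ∅}, fun q => by
      by_cases h : (O ∩ P q.1).Nonempty
      · obtain ⟨r, h1, -, h2⟩ := hext q O hO h 0
        exact ⟨r, Or.inl h2, h1⟩
      · exact ⟨q, Or.inr (Set.not_nonempty_iff_eq_empty.1 h), le_rfl⟩⟩ else default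
  have hDW : ∀ O, IsOpen O → (DW O).carrier = {r | P r.1 ⊆ O ∨ O ∩ P r.1 = ∅} := by
    intro O hO
    simp only [DW, dif_pos hO]
  let 𝒟 : (ℕ ⊕ ι) ⊕ (κ ⊕ κ) → Order.Cofinal Q := fun i =>
    match i with
    | Sum.inl (Sum.inl N) => DN N
    | Sum.inl (Sum.inr i) => DW (W i)
    | Sum.inr (Sum.inl i) => DW (D i ×ˢ univ)
    | Sum.inr (Sum.inr i) => DW (univ ×ˢ D i)
  have hcard : #((ℕ ⊕ ι) ⊕ (κ ⊕ κ)) < θ := by
    have h0 : ℵ₀ ≤ θ := hθ.le
    simp only [Cardinal.mk_sum, Cardinal.mk_nat, Cardinal.lift_id]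
    refine Cardinal.add_lt_of_lt h0 (Cardinal.add_lt_of_lt h0 hθ hι) (Cardinal.add_lt_of_lt h0 hκ hκ)
  obtain ⟨I, hI⟩ := hMA Q _ hcard 𝒟
  -- intersection of the filter
  have hinter : (⋂ q : I, P q.1.1).Nonempty := by
    have : Nonempty I := I.nonempty.to_subtype
    refine IsCompact.nonempty_iInter_of_directed_nonempty_isCompact_isClosed (fun q : I => P q.1.1) ?_
      (fun q => q.1.3) (fun q => (isClosed_P _).isCompact) (fun q => isClosed_P _)
    intro q r
    obtain ⟨s, hs, h1, h2⟩ := I.directed q.1 q.2 r.1 r.2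
    exact ⟨⟨s, hs⟩, h1, h2⟩
  obtain ⟨z, hz⟩ := hinter
  have hz' : ∀ q : Q, q ∈ I → z ∈ P q.1 := fun q hq => mem_iInter.1 hz ⟨q, hq⟩
  have hdense : ∀ (q : Q) (i : κ), ((D i ×ˢ univ) ∩ P q.1).Nonempty ∧ ((univ ×ˢ D i) ∩ P q.1).Nonempty := by
    intro q i
    obtain ⟨w, hw⟩ := q.3
    have hbox : ∀ x : E, ∃ x' ∈ D i, ∀ k < q.1.1, ∀ j < q.1.1, x' k j = x k j := by
      intro x
      have hopen : IsOpen {x' : E | ∀ k < q.1.1, ∀ j < q.1.1, x' k j = x k j} := by
        have : {x' : E | ∀ k < q.1.1, ∀ j < q.1.1, x' k j = x k j} =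
            ⋂ k ∈ Finset.range q.1.1, ⋂ j ∈ Finset.range q.1.1, (fun x' : E => x' k j) ⁻¹' {x k j} := by
          ext; simp
        rw [this]
        refine isOpen_biInter_finset fun k _ => isOpen_biInter_finset fun j _ => ?_
        exact (isOpen_discrete _).preimage (by fun_prop)
      obtain ⟨x', h1, h2⟩ := (hDd i).inter_open_nonempty _ hopen ⟨x, fun _ _ _ _ => rfl⟩
      exact ⟨x', h2, h1⟩
    constructor
    · obtain ⟨x', hx', hag⟩ := hbox w.1
      refine ⟨(x', fun k j => if k < q.1.1 ∧ q.1.1 ≤ j then xor (x' k j) (g k) else w.2 k j),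
        ⟨hx', mem_univ _⟩, ?_, ?_⟩
      · intro k hk j hj
        have h1 := hw.1 k hk j hj
        have h3 : ¬ (q.1.1 ≤ j) := not_le.2 hj
        simp only [hk, h3, and_false, if_false, hag k hk j hj]
        exact h1
      · intro k hk j hj
        simp [hk, hj, q.2 k hk]
    · obtain ⟨x', hx', hag⟩ := hbox w.2
      refine ⟨(fun k j => if k < q.1.1 ∧ q.1.1 ≤ j then xor (x' k j) (g k) else w.1 k j, x'),
        ⟨mem_univ _, hx'⟩, ?_, ?_⟩
      · intro k hk j hj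
        have h1 := hw.1 k hk j hj
        have h3 : ¬ (q.1.1 ≤ j) := not_le.2 hj
        simp only [hk, h3, and_false, if_false, hag k hk j hj]
        exact h1
      · intro k hk j hj
        simp [hk, hj, q.2 k hk]
        cases x' k j <;> cases g k <;> simp
  refine ⟨z, ?_, ?_, ?_⟩
  · intro k
    obtain ⟨q, hq, hqI⟩ := hI (Sum.inl (Sum.inl (k + 1)))
    have hk : k < q.1.1 := hq
    refine ⟨q.1.1, fun j hj => ?_⟩
    have h1 := (hz' q hqI).2 k hk j hj
    rw [q.2 k hk] at h1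
    exact Bool.eq_iff_iff.2 h1
  · intro i
    constructor
    · obtain ⟨q, hq, hqI⟩ := hI (Sum.inr (Sum.inl i))
      have hq' : q ∈ (DW (D i ×ˢ univ)).carrier := hq
      rw [hDW _ ((hDo i).prod isOpen_univ)] at hq'
      rcases hq' with h | h
      · exact (h (hz' q hqI)).1
      · exact absurd h ((hdense q i).1.ne_empty)
    · obtain ⟨q, hq, hqI⟩ := hI (Sum.inr (Sum.inr i))
      have hq' : q ∈ (DW (univ ×ˢ D i)).carrier := hq
      rw [hDW _ (isOpen_univ.prod (hDo i))] at hq'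
      rcases hq' with h | h
      · exact (h (hz' q hqI)).2
      · exact absurd h ((hdense q i).2.ne_empty)
  · intro i
    obtain ⟨q, hq, hqI⟩ := hI (Sum.inl (Sum.inr i))
    have hq' : q ∈ (DW (W i)).carrier := hq
    rw [hDW _ (hW i)] at hq'
    rcases hq' with h | h
    · exact Or.inl (h (hz' q hqI))
    · exact Or.inr ⟨q.1, hz' q hqI, h⟩


lemma exists_rec {I D : Type} [LinearOrder I] [WellFoundedLT I] [Nonempty D]
    (R : I → (I → D) → D → Prop)
    (hcongr : ∀ α f f' d, (∀ β < α, f β = f' β) → R α f d → R α f' d)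
    (H : ∀ α f, (∀ β < α, R β f (f β)) → ∃ d, R α f d) :
    ∃ F : I → D, ∀ α, R α F (F α) := by
  classical
  let ext : ∀ α : I, (∀ β, β < α → D) → I → D :=
    fun α prev β => if h : β < α then prev β h else Classical.arbitrary D
  let step : ∀ α : I, (∀ β, β < α → D) → D := fun α prev =>
    if h : ∃ d, R α (ext α prev) d then h.choose else Classical.arbitrary D
  let F : I → D := (wellFounded_lt (α := I)).fix step
  have hF : ∀ α, F α = step α (fun β _ => F β) := fun α => WellFounded.fix_eq _ _ _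
  have hext : ∀ α, ∀ β < α, ext α (fun β _ => F β) β = F β := fun α β hβ => by
    simp only [ext, dif_pos hβ]
  refine ⟨F, fun α => ?_⟩
  induction α using WellFoundedLT.induction with
  | ind α ih =>
    obtain ⟨d, hd⟩ := H α F ih
    have h : ∃ d, R α (ext α (fun β _ => F β)) d :=
      ⟨d, hcongr _ _ _ _ (fun β hβ => (hext α β hβ).symm) hd⟩
    have h2 : F α = h.choose := by
      rw [hF]
      simp only [step]
      rw [dif_pos h]
    rw [h2]
    exact hcongr _ _ _ _ (fun β hβ => hext α β hβ) h.choose_spec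

lemma mk_finset_lt {θ : Cardinal.{0}} (hθ : ℵ₀ < θ) {T : Type} (h : #T < θ) : #(Finset T) < θ := by
  rcases finite_or_infinite T with hf | hi
  · have := Fintype.ofFinite T
    exact (Cardinal.lt_aleph0_of_finite _).trans hθ
  · rwa [Cardinal.mk_finset_of_infinite]

lemma countable_lt {θ : Cardinal.{0}} (hθ : ℵ₀ < θ) {T : Type} [Countable T] : #T < θ :=
  (Cardinal.mk_le_aleph0_iff.2 inferInstance).trans_lt hθ

lemma mk_prod_lt {θ : Cardinal.{0}} (hθ : ℵ₀ < θ) {S T : Type} (h1 : #S < θ) (h2 : #T < θ) :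
    #(S × T) < θ := by
  rw [Cardinal.mk_prod, Cardinal.lift_id, Cardinal.lift_id]
  exact Cardinal.mul_lt_of_lt hθ.le h1 h2

/-- finite sequences, ordered by initial segments -/
structure LCond where
  /-- the list -/
  l : List ℕ

instance : Preorder LCond where
  le a b := a.l <+: b.l
  le_refl _ := List.prefix_rfl
  le_trans _ _ _ h1 h2 := h1.trans h2

instance : Countable LCond := by
  refine Function.Injective.countable (f := fun q : LCond => q.l) ?_
  rintro ⟨a⟩ ⟨b⟩ h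
  simpa using h

instance : Nonempty LCond := ⟨⟨[]⟩⟩

lemma getD_of_prefix {l l' : List ℕ} (h : l <+: l') {n : ℕ} (hn : n < l.length) :
    l'.getD n 0 = l.getD n 0 := by
  obtain ⟨t, rfl⟩ := h
  exact List.getD_append _ _ _ _ hn

/-- Cohen-type real -/
lemma exists_choice {θ : Cardinal.{0}} (hθ : ℵ₀ < θ) (hMA : MAk θ) {ι : Type} (hι : #ι < θ) (S : ι → ℕ → Set ℕ)
    (hS : ∀ i n, (S i n).Nonempty) : ∃ c : ℕ → ℕ, ∀ i, ∃ n, c n ∈ S i n := by
  classical
  let DN : ℕ → Order.Cofinal LCond := fun N => ⟨{r | N ≤ r.l.length}, fun q =>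
    ⟨⟨q.l ++ List.replicate N 0⟩, by simp, List.prefix_append _ _⟩⟩
  let DS : ι → Order.Cofinal LCond := fun i =>
    ⟨{r | ∃ n, n < r.l.length ∧ r.l.getD n 0 ∈ S i n}, fun q => by
      obtain ⟨m, hm⟩ := hS i q.l.length
      refine ⟨⟨q.l ++ [m]⟩, ⟨q.l.length, by simp, ?_⟩, List.prefix_append _ _⟩
      simpa using hm⟩
  let 𝒟 : ℕ ⊕ ι → Order.Cofinal LCond := fun i =>
    match i with
    | Sum.inl N => DN N
    | Sum.inr i => DS i
  have hcard : #(ℕ ⊕ ι) < θ := by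
    simp only [Cardinal.mk_sum, Cardinal.mk_nat, Cardinal.lift_id]
    exact Cardinal.add_lt_of_lt hθ.le hθ hι
  obtain ⟨J, hJ⟩ := hMA LCond _ hcard 𝒟
  have h1 : ∀ n : ℕ, ∃ q : LCond, n < q.l.length ∧ q ∈ J := by
    intro n
    obtain ⟨q, hq, hqJ⟩ := hJ (Sum.inl (n + 1))
    exact ⟨q, hq, hqJ⟩
  choose q hq hqJ using h1
  refine ⟨fun n => (q n).l.getD n 0, fun i => ?_⟩
  obtain ⟨r, ⟨n, hn, hrn⟩, hrJ⟩ := hJ (Sum.inr i)
  refine ⟨n, ?_⟩
  obtain ⟨s, -, hs1, hs2⟩ := J.directed (q n) (hqJ n) r hrJ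
  have e1 := getD_of_prefix hs1 (hq n)
  have e2 := getD_of_prefix hs2 hn
  simp only
  rw [← e1, e2]
  exact hrn

lemma residual_seq {G : Set E} (hG : G ∈ residual E) :
    ∃ D : ℕ → Set E, (∀ i, IsOpen (D i)) ∧ (∀ i, Dense (D i)) ∧ ⋂ i, D i ⊆ G := by
  obtain ⟨S, h1, h2, h3, h4⟩ := mem_residual_iff.1 hG
  have hc : (insert Set.univ S).Countable := h3.insert _
  obtain ⟨D, hD⟩ := hc.exists_eq_range (Set.insert_nonempty _ _)
  have hmem : ∀ i, D i ∈ insert Set.univ S := fun i => hD ▸ mem_range_self i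
  refine ⟨D, fun i => ?_, fun i => ?_, ?_⟩
  · rcases hmem i with h | h
    · rw [h]; exact isOpen_univ
    · exact h1 _ h
  · rcases hmem i with h | h
    · rw [h]; exact dense_univ
    · exact h2 _ h
  · refine Subset.trans (fun x hx => ?_) h4
    rw [mem_sInter]
    intro t ht
    have : t ∈ range D := hD ▸ (Set.mem_insert_of_mem _ ht)
    obtain ⟨i, rfl⟩ := this
    exact mem_iInter.1 hx i


/-- the points with index in `A` -/
def pts {I : Type} (f : I → (ℕ → ℕ) × E × E) (A : Finset I) : Set E :=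
  {x | ∃ i ∈ A, x = (f i).2.1 ∨ x = (f i).2.2}

lemma pts_congr {I : Type} {f f' : I → (ℕ → ℕ) × E × E} {A : Finset I} (h : ∀ i ∈ A, f i = f' i) :
    pts f A = pts f' A := by
  ext x
  simp only [pts, mem_ofPred_eq]
  constructor
  · rintro ⟨i, hi, hx⟩; exact ⟨i, hi, by rwa [← h i hi]⟩
  · rintro ⟨i, hi, hx⟩; exact ⟨i, hi, by rwa [h i hi]⟩

/-- the open set `O` is good for all the conditions in `Q` -/
def good (O : Set E) (Q : Finset Cond) : Prop := ∀ q ∈ Q, ((O ×ˢ O) ∩ P q).Nonempty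

/-- consistency -/
def cons (U O : ℕ → ℕ → Set E) (F : Set E) (Q : Finset Cond) : Prop :=
  ∀ n, ∃ m, F ⊆ U n m ∧ good (O n m) Q

/-- the selection `c` hits -/
def hit (U O : ℕ → ℕ → Set E) (c : ℕ → ℕ) (F : Set E) (Q : Finset Cond) : Prop :=
  ∃ n, F ⊆ U n (c n) ∧ good (O n (c n)) Q

/-- the requirement at stage `α` -/
def Req {I : Type} [LinearOrder I] (U O : I → ℕ → ℕ → Set E) (g : I → ℕ → Bool) (α : I)
    (f : I → (ℕ → ℕ) × E × E) (d : (ℕ → ℕ) × E × E) : Prop :=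
  (∀ β ≤ α, ∀ n m, (d.2.1 ∈ U β n m ↔ d.2.1 ∈ O β n m) ∧ (d.2.2 ∈ U β n m ↔ d.2.2 ∈ O β n m)) ∧
  (∀ k, ∃ h, ∀ j ≥ h, xor (d.2.1 k j) (d.2.2 k j) = g α k) ∧
  (∀ A : Finset I, (∀ i ∈ A, i < α) → ∀ Q, cons (U α) (O α) (pts f A) Q →
    hit (U α) (O α) d.1 (pts f A) Q) ∧
  (∀ β ≤ α, ∀ A : Finset I, (∀ i ∈ A, i < α) → ∀ Q,
    cons (U β) (O β) (pts f A ∪ {d.2.1, d.2.2}) Q →
    hit (U β) (O β) (if β < α then (f β).1 else d.1) (pts f A ∪ {d.2.1, d.2.2}) Q)

lemma Req_congr {I : Type} [LinearOrder I] (U O : I → ℕ → ℕ → Set E) (g : I → ℕ → Bool) (α : I)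
    (f f' : I → (ℕ → ℕ) × E × E) (d : (ℕ → ℕ) × E × E) (h : ∀ β < α, f β = f' β)
    (hR : Req U O g α f d) : Req U O g α f' d := by
  obtain ⟨h1, h2, h3, h4⟩ := hR
  refine ⟨h1, h2, ?_, ?_⟩
  · intro A hA Q
    rw [← pts_congr (fun i hi => h i (hA i hi))]
    exact h3 A hA Q
  · intro β hβ A hA Q
    rw [← pts_congr (fun i hi => h i (hA i hi))]
    have : (if β < α then (f' β).1 else d.1) = (if β < α then (f β).1 else d.1) := by
      split_ifs with h'
      · rw [h β h']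
      · rfl
    rw [this]
    exact h4 β hβ A hA Q

lemma pts_insert {I : Type} [DecidableEq I] (f : I → (ℕ → ℕ) × E × E) (A : Finset I) (i : I) :
    pts f (insert i A) = pts f A ∪ {(f i).2.1, (f i).2.2} := by
  ext x
  simp only [pts, mem_ofPred_eq, Finset.mem_insert, mem_union, Set.mem_insert_iff, mem_singleton_iff]
  constructor
  · rintro ⟨j, rfl | hj, hx⟩
    · exact Or.inr hx
    · exact Or.inl ⟨j, hj, hx⟩
  · rintro (⟨j, hj, hx⟩ | hx)
    · exact ⟨j, Or.inr hj, hx⟩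
    · exact ⟨i, Or.inl rfl, hx⟩

/-- invariant derived from the requirements -/
lemma inv_of_req {I : Type} [LinearOrder I] [WellFoundedLT I] (U O : I → ℕ → ℕ → Set E)
    (g : I → ℕ → Bool) (f : I → (ℕ → ℕ) × E × E) (β : I) (A : Finset I)
    (hβ : Req U O g β f (f β)) (hA : ∀ i ∈ A, β ≤ i → Req U O g i f (f i))
    (Q : Finset Cond) (hc : cons (U β) (O β) (pts f A) Q) :
    hit (U β) (O β) (f β).1 (pts f A) Q := by
  classical
  by_cases hAβ : ∀ i ∈ A, i < β
  · exact hβ.2.2.1 A hAβ Q hc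
  · push Not at hAβ
    obtain ⟨i, hi, hβi⟩ := hAβ
    have hne : A.Nonempty := ⟨i, hi⟩
    set γ := A.max' hne with hγ
    have hγA : γ ∈ A := A.max'_mem hne
    have hβγ : β ≤ γ := hβi.trans (A.le_max' i hi)
    have hA' : A = insert γ (A.erase γ) := (Finset.insert_erase hγA).symm
    have hlt : ∀ j ∈ A.erase γ, j < γ := by
      intro j hj
      rw [Finset.mem_erase] at hj
      exact lt_of_le_of_ne (A.le_max' j hj.2) hj.1
    have hR := (hA γ hγA hβγ).2.2.2 β hβγ (A.erase γ) hlt Q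
    rw [← pts_insert, ← hA'] at hR
    have h1 : (if β < γ then (f β).1 else (f γ).1) = (f β).1 := by
      split_ifs with h'
      · rfl
      · rw [le_antisymm hβγ (not_lt.1 h')]
    rw [h1] at hR
    exact hR hc

lemma exists_stage {θ : Cardinal.{0}} (hθ : ℵ₀ < θ) (hMA : MAk θ) {I : Type} [LinearOrder I]
    [WellFoundedLT I] (hI : ∀ α : I, #(Iio α) < θ) (U O : I → ℕ → ℕ → Set E) (g : I → ℕ → Bool)
    (hO : ∀ α n m, IsOpen (O α n m)) (hUO : ∀ α n m, U α n m =ᶠ[residual E] O α n m)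
    (α : I) (f : I → (ℕ → ℕ) × E × E) (hf : ∀ β < α, Req U O g β f (f β)) :
    ∃ d, Req U O g α f d := by
  classical
  have hIic : #(Iic α) < θ := by
    have : Iic α = insert α (Iio α) := by ext; simp [le_iff_eq_or_lt]
    rw [this]
    refine (Cardinal.mk_insert_le).trans_lt ?_
    exact Cardinal.add_lt_of_lt hθ.le (hI α) (Cardinal.one_lt_aleph0.trans hθ)
  let emb : Finset (Iio α) → Finset I := fun A => A.map (Function.Embedding.subtype _)
  have hemb : ∀ A i, i ∈ emb A → i < α := by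
    intro A i hi
    simp only [emb, Finset.mem_map, Function.Embedding.coe_subtype] at hi
    obtain ⟨a, -, rfl⟩ := hi
    exact a.2
  have hemb' : ∀ A : Finset I, (∀ i ∈ A, i < α) → ∃ A', emb A' = A := by
    intro A hA
    refine ⟨A.subtype _, ?_⟩
    simp only [emb]
    exact Finset.subtype_map_of_mem hA
  -- step 1: the selection
  obtain ⟨c, hc⟩ := exists_choice hθ hMA
    (ι := {p : Finset (Iio α) × Finset Cond // cons (U α) (O α) (pts f (emb p.1)) p.2})
    ((Cardinal.mk_subtype_le _).trans_lt (mk_prod_lt hθ (mk_finset_lt hθ (hI α)) (countable_lt hθ)))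
    (fun p n => {m | pts f (emb p.1.1) ⊆ U α n m ∧ good (O α n m) p.1.2})
    (fun p n => p.2 n)
  have hc' : ∀ A : Finset I, (∀ i ∈ A, i < α) → ∀ Q, cons (U α) (O α) (pts f A) Q →
      hit (U α) (O α) c (pts f A) Q := by
    intro A hA Q hcons
    obtain ⟨A', rfl⟩ := hemb' A hA
    exact hc ⟨(A', Q), hcons⟩
  let cc : I → ℕ → ℕ := fun β => if β < α then (f β).1 else c
  -- step 2: the invariant
  have hinv : ∀ β ≤ α, ∀ A : Finset I, (∀ i ∈ A, i < α) → ∀ Q, cons (U β) (O β) (pts f A) Q →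
      hit (U β) (O β) (cc β) (pts f A) Q := by
    intro β hβ A hA Q hcons
    rcases hβ.lt_or_eq with hlt | rfl
    · simp only [cc, if_pos hlt]
      exact inv_of_req U O g f β A (hf β hlt) (fun i hi _ => hf i (hA i hi)) Q hcons
    · simp only [cc, lt_irrefl, if_false]
      exact hc' A hA Q hcons
  -- step 3: the generic pair
  have hG : ∀ β : I, ∃ D : ℕ → Set E, (∀ i, IsOpen (D i)) ∧ (∀ i, Dense (D i)) ∧
      ⋂ i, D i ⊆ {x | ∀ n m, x ∈ U β n m ↔ x ∈ O β n m} := by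
    intro β
    refine residual_seq ?_
    have : ∀ᶠ x in residual E, ∀ n m, x ∈ U β n m ↔ x ∈ O β n m := by
      rw [eventually_countable_forall]; intro n
      rw [eventually_countable_forall]; intro m
      exact (hUO β n m).mem_iff
    exact this
  choose D hD1 hD2 hD3 using hG
  let W : Iic α × Finset (Iio α) × Finset Cond → Set (E × E) := fun p =>
    ⋃ n ∈ {n | pts f (emb p.2.1) ⊆ U p.1 n (cc p.1 n) ∧ good (O p.1 n (cc p.1 n)) p.2.2},
      O p.1 n (cc p.1 n) ×ˢ O p.1 n (cc p.1 n)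
  have hWo : ∀ p, IsOpen (W p) := fun p => isOpen_biUnion fun n _ => (hO _ _ _).prod (hO _ _ _)
  obtain ⟨z, hz1, hz2, hz3⟩ := exists_pair hθ hMA (g α) (ι := Iic α × Finset (Iio α) × Finset Cond)
    (mk_prod_lt hθ hIic (mk_prod_lt hθ (mk_finset_lt hθ (hI α)) (countable_lt hθ))) W hWo
    (κ := Iic α × ℕ) (mk_prod_lt hθ hIic (countable_lt hθ)) (fun p => D p.1 p.2)
    (fun p => hD1 _ _) (fun p => hD2 _ _)
  have hzG : ∀ β ≤ α, ∀ n m, (z.1 ∈ U β n m ↔ z.1 ∈ O β n m) ∧ (z.2 ∈ U β n m ↔ z.2 ∈ O β n m) := by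
    intro β hβ n m
    have e1 : z.1 ∈ ⋂ i, D β i := mem_iInter.2 fun i => (hz2 (⟨β, hβ⟩, i)).1
    have e2 : z.2 ∈ ⋂ i, D β i := mem_iInter.2 fun i => (hz2 (⟨β, hβ⟩, i)).2
    exact ⟨hD3 β e1 n m, hD3 β e2 n m⟩
  refine ⟨(c, z.1, z.2), hzG, hz1, hc', ?_⟩
  intro β hβ A hA Q hcons
  obtain ⟨A', rfl⟩ := hemb' A hA
  change hit (U β) (O β) (cc β) _ Q
  have hmem : ∀ n m, pts f (emb A') ∪ {z.1, z.2} ⊆ U β n m → pts f (emb A') ⊆ U β n m ∧
      z.1 ∈ O β n m ∧ z.2 ∈ O β n m := by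
    intro n m h
    refine ⟨subset_union_left.trans h, ?_, ?_⟩
    · exact ((hzG β hβ n m).1).1 (h (Or.inr (by simp)))
    · exact ((hzG β hβ n m).2).1 (h (Or.inr (by simp)))
  rcases hz3 (⟨β, hβ⟩, A', Q) with hW | ⟨q, hq, hqW⟩
  · simp only [W, mem_iUnion, mem_ofPred_eq, exists_prop, mem_prod] at hW
    obtain ⟨n, ⟨h1, h2⟩, h3, h4⟩ := hW
    refine ⟨n, ?_, h2⟩
    rintro x (hx | hx)
    · exact h1 hx
    · rcases hx with rfl | hx
      · exact ((hzG β hβ _ _).1).2 h3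
      · rw [mem_singleton_iff] at hx
        rw [hx]
        exact ((hzG β hβ _ _).2).2 h4
  · exfalso
    have hcons' : cons (U β) (O β) (pts f (emb A')) (insert q Q) := by
      intro n
      obtain ⟨m, hm1, hm2⟩ := hcons n
      obtain ⟨e1, e2, e3⟩ := hmem n m hm1
      refine ⟨m, e1, ?_⟩
      intro r hr
      rcases Finset.mem_insert.1 hr with rfl | hr
      · exact ⟨z, ⟨e2, e3⟩, hq⟩
      · exact hm2 r hr
    obtain ⟨n, hn1, hn2⟩ := hinv β hβ _ hA _ hcons'
    obtain ⟨w, hw1, hw2⟩ := hn2 q (Finset.mem_insert_self _ _)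
    have : w ∈ W (⟨β, hβ⟩, A', Q) ∩ P q := by
      refine ⟨?_, hw2⟩
      simp only [W, mem_iUnion, mem_ofPred_eq, exists_prop]
      exact ⟨n, ⟨hn1, fun r hr => hn2 r (Finset.mem_insert_of_mem hr)⟩, hw1⟩
    rw [hqW] at this
    exact this


/-- combinatorial core in the Cantor space -/
lemma main_E (hMA : MACountable) : ∃ X : Set E,
    (∀ 𝒰 : ℕ → ℕ → Set E, (∀ n m, MeasurableSet (𝒰 n m)) →
      (∀ n, ∀ F : Set E, F.Finite → F ⊆ X → ∃ m, F ⊆ 𝒰 n m) →
      ∃ c : ℕ → ℕ, ∀ F : Set E, F.Finite → F ⊆ X → ∃ n, F ⊆ 𝒰 n (c n)) ∧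
    (∀ g : ℕ → Bool, ∃ x ∈ X, ∃ y ∈ X, ∀ k, ∃ h, ∀ j ≥ h, xor (x k j) (y k j) = g k) := by
  classical
  let I := (𝔠 : Cardinal.{0}).ord.ToType
  have hI : ∀ α : I, #(Iio α) < 𝔠 := fun α => by
    have := Cardinal.mk_Iio_lt α (by simp [I])
    simpa [I] using this
  -- enumeration of the tasks
  let T := (ℕ → ℕ → {s : Set E // MeasurableSet s}) × (ℕ → Bool)
  have hMS : #{s : Set E // MeasurableSet s} ≤ 𝔠 := by
    have h1 : (TopologicalSpace.countableBasis E).Countable := TopologicalSpace.countable_countableBasis E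
    have h2 : #(TopologicalSpace.countableBasis E) ≤ 𝔠 :=
      (Cardinal.mk_le_aleph0_iff.2 h1.to_subtype).trans Cardinal.aleph0_le_continuum
    have h3 := MeasurableSpace.cardinal_measurableSet_le_continuum h2
    rw [← (TopologicalSpace.isBasis_countableBasis E).borel_eq_generateFrom,
      ← BorelSpace.measurable_eq (α := E)] at h3
    exact h3
  have hT : #T ≤ 𝔠 := by
    have e1 : #(ℕ → ℕ → {s : Set E // MeasurableSet s}) ≤ 𝔠 := by
      simp only [Cardinal.mk_pi, Cardinal.prod_const, Cardinal.mk_nat, Cardinal.lift_id]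
      calc _ ≤ ((𝔠 : Cardinal.{0}) ^ ℵ₀) ^ ℵ₀ :=
            Cardinal.power_le_power_right (Cardinal.power_le_power_right hMS)
        _ = 𝔠 := by simp
    have e2 : #(ℕ → Bool) ≤ 𝔠 := by simp
    simp only [T, Cardinal.mk_prod, Cardinal.lift_id]
    calc _ ≤ (𝔠 : Cardinal.{0}) * 𝔠 := mul_le_mul' e1 e2
      _ = 𝔠 := by simp
  have hTne : Nonempty T := ⟨(fun _ _ => ⟨∅, MeasurableSet.empty⟩, fun _ => false)⟩
  obtain ⟨e, he⟩ : ∃ e : I → T, Function.Surjective e := by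
    have : #T ≤ #I := by simpa [I] using hT
    obtain ⟨φ⟩ := this
    exact ⟨Function.invFun φ, Function.invFun_surjective φ.injective⟩
  let U : I → ℕ → ℕ → Set E := fun α n m => ((e α).1 n m).1
  have hU : ∀ α n m, MeasurableSet (U α n m) := fun α n m => ((e α).1 n m).2
  have hO : ∀ α n m, ∃ O : Set E, IsOpen O ∧ U α n m =ᶠ[residual E] O := fun α n m =>
    (hU α n m).residualEq_isOpen
  choose O hO1 hO2 using hO
  let g : I → ℕ → Bool := fun α => (e α).2
  obtain ⟨F, hF⟩ := exists_rec (D := (ℕ → ℕ) × E × E) (Req U O g) (Req_congr U O g)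
    (fun α f hf => exists_stage Cardinal.aleph0_lt_continuum hMA hI U O g hO1 hO2 α f hf)
  refine ⟨{x | ∃ α, x = (F α).2.1 ∨ x = (F α).2.2}, ?_, ?_⟩
  · intro 𝒰 h𝒰 hω
    obtain ⟨β, hβ⟩ := he (fun n m => ⟨𝒰 n m, h𝒰 n m⟩, fun _ => false)
    have hUβ : U β = 𝒰 := by
      funext n m
      simp only [U, hβ]
    refine ⟨(F β).1, fun S hS hSX => ?_⟩
    -- find a finite index set
    obtain ⟨A, hA⟩ : ∃ A : Finset I, S ⊆ pts F A := by
      have hIne : Nonempty I := ⟨β⟩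
      have hSX' : ∀ x ∈ S, ∃ α, x = (F α).2.1 ∨ x = (F α).2.2 := fun x hx => hSX hx
      choose! a ha using hSX'
      refine ⟨hS.toFinset.image a, fun x hx => ?_⟩
      exact ⟨a x, Finset.mem_image.2 ⟨x, hS.mem_toFinset.2 hx, rfl⟩, ha x hx⟩
    have hptsfin : (pts F A).Finite := by
      have : pts F A = ⋃ i ∈ A, {(F i).2.1, (F i).2.2} := by
        ext x; simp [pts]
      rw [this]
      exact Set.Finite.biUnion A.finite_toSet fun i _ => by simp
    have hcons : cons (U β) (O β) (pts F A) ∅ := by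
      intro n
      obtain ⟨m, hm⟩ := hω n (pts F A) hptsfin (fun x hx => by
        obtain ⟨i, -, hi⟩ := hx
        exact ⟨i, hi⟩)
      refine ⟨m, by rw [hUβ]; exact hm, ?_⟩
      intro q hq
      simp at hq
    obtain ⟨n, hn, -⟩ := inv_of_req U O g F β A (hF β) (fun i _ _ => hF i) ∅ hcons
    rw [hUβ] at hn
    exact ⟨n, hA.trans hn⟩
  · intro g'
    obtain ⟨α, hα⟩ := he (fun _ _ => ⟨∅, MeasurableSet.empty⟩, g')
    refine ⟨(F α).2.1, ⟨α, Or.inl rfl⟩, (F α).2.2, ⟨α, Or.inr rfl⟩, ?_⟩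
    have := (hF α).2.1
    simp only [g, hα] at this
    exact this


/-- the limit superior of the xor of two matrices -/
noncomputable def L (z : E × E) : ℕ → Bool := by
  classical exact fun k => decide (∀ h, ∃ j, h ≤ j ∧ xor (z.1 k j) (z.2 k j) = true)

lemma L_eq {z : E × E} {g : ℕ → Bool} (h : ∀ k, ∃ h, ∀ j ≥ h, xor (z.1 k j) (z.2 k j) = g k) :
    L z = g := by
  funext k
  obtain ⟨m, hm⟩ := h k
  rw [Bool.eq_iff_iff]
  simp only [L, decide_eq_true_eq]
  constructor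
  · intro h'
    obtain ⟨j, hj, hj'⟩ := h' m
    rw [← hm j hj, hj']
  · intro hg m'
    refine ⟨max m m', le_max_right _ _, ?_⟩
    rw [hm _ (le_max_left _ _), hg]

lemma measurable_L : Measurable L := by
  rw [measurable_pi_iff]
  intro k
  refine measurable_to_bool ?_
  have : (fun z => L z k) ⁻¹' {true} =
      ⋂ h : ℕ, ⋃ j : ℕ, ⋃ (_ : h ≤ j), {z : E × E | xor (z.1 k j) (z.2 k j) = true} := by
    ext z
    simp [L]
  rw [this]
  refine MeasurableSet.iInter fun h => MeasurableSet.iUnion fun j => MeasurableSet.iUnion fun _ => ?_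
  have hm : Measurable (fun z : E × E => (z.1 k j, z.2 k j)) := by fun_prop
  have := (Measurable.of_discrete (f := fun p : Bool × Bool => xor p.1 p.2)).comp hm
  exact this (measurableSet_singleton true)

/-- version on the real line -/
lemma main_real (hMA : MACountable) : ∃ X : Set ℝ,
    S1 (BorelOmegaCovers X) (BorelOmegaCovers X) ∧
    ∃ Φ : ℝ × ℝ → (ℕ → Bool), Measurable Φ ∧ ∀ g, ∃ x ∈ X, ∃ y ∈ X, Φ (x, y) = g := by
  obtain ⟨X, hX1, hX2⟩ := main_E hMA
  have hE : ¬ Countable E := by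
    have h2 : #E = 𝔠 := by simp [E]
    intro h
    have h1 : #E ≤ ℵ₀ := Cardinal.mk_le_aleph0_iff.2 h
    rw [h2] at h1
    exact absurd h1 (not_le.2 Cardinal.aleph0_lt_continuum)
  have hR : ¬ Countable ℝ := by
    intro h
    have h1 : #ℝ ≤ ℵ₀ := Cardinal.mk_le_aleph0_iff.2 h
    rw [Cardinal.mk_real] at h1
    exact absurd h1 (not_le.2 Cardinal.aleph0_lt_continuum)
  let e : ℝ ≃ᵐ E := PolishSpace.measurableEquivOfNotCountable hR hE
  refine ⟨e ⁻¹' X, ?_, ?_⟩
  · intro 𝒰 h𝒰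
    -- enumerate the families
    have hne : ∀ n, (𝒰 n).Nonempty := fun n => by
      obtain ⟨U, hU, -⟩ := (h𝒰 n).2 ∅ Set.finite_empty (empty_subset _)
      exact ⟨U, hU⟩
    have hen : ∀ n, ∃ u : ℕ → Set ℝ, 𝒰 n = range u := fun n =>
      (h𝒰 n).1.2.1.exists_eq_range (hne n)
    choose u hu using hen
    have hmem : ∀ n m, u n m ∈ 𝒰 n := fun n m => hu n ▸ mem_range_self m
    obtain ⟨c, hc⟩ := hX1 (fun n m => e.symm ⁻¹' (u n m))
      (fun n m => e.symm.measurable ((h𝒰 n).1.2.2 _ (hmem n m)))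
      (fun n F hF hFX => by
        obtain ⟨U, hU, hFU⟩ := (h𝒰 n).2 (e.symm '' F) (hF.image _) (by
          rintro _ ⟨x, hx, rfl⟩
          simpa using hFX hx)
        rw [hu n] at hU
        obtain ⟨m, rfl⟩ := hU
        exact ⟨m, fun x hx => hFU ⟨x, hx, rfl⟩⟩)
    have hsel : ∀ F : Set ℝ, F.Finite → F ⊆ e ⁻¹' X → ∃ n, F ⊆ u n (c n) := by
      intro F hF hFX
      obtain ⟨n, hn⟩ := hc (e '' F) (hF.image _) (by
        rintro _ ⟨x, hx, rfl⟩
        exact hFX hx)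
      refine ⟨n, fun x hx => ?_⟩
      have := hn ⟨x, hx, rfl⟩
      simpa using this
    refine ⟨fun n => u n (c n), fun n => hmem _ _, ⟨⟨?_, ?_⟩, countable_range _, ?_⟩, ?_⟩
    · intro x hx
      obtain ⟨n, hn⟩ := hsel {x} (finite_singleton x) (by simpa using hx)
      exact ⟨_, mem_range_self n, hn rfl⟩
    · rintro _ ⟨n, rfl⟩
      exact (h𝒰 n).1.1.2 _ (hmem _ _)
    · rintro _ ⟨n, rfl⟩
      exact (h𝒰 n).1.2.2 _ (hmem _ _)
    · intro F hF hFX
      obtain ⟨n, hn⟩ := hsel F hF hFX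
      exact ⟨_, mem_range_self n, hn⟩
  · refine ⟨fun p => L (e p.1, e p.2), measurable_L.comp (by fun_prop), fun g => ?_⟩
    obtain ⟨x, hx, y, hy, h⟩ := hX2 g
    refine ⟨e.symm x, by simpa using hx, e.symm y, by simpa using hy, ?_⟩
    simp only [MeasurableEquiv.apply_symm_apply]
    exact L_eq h

/-- a Borel surjection from the Cantor space to the Baire space -/
lemma exists_surj : ∃ s : (ℕ → Bool) → (ℕ → ℕ), Measurable s ∧ Function.Surjective s := by
  have h1 : ¬ Countable (ℕ → Bool) := by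
    have h2 : #(ℕ → Bool) = 𝔠 := by simp
    intro h
    have h1 : #(ℕ → Bool) ≤ ℵ₀ := Cardinal.mk_le_aleph0_iff.2 h
    rw [h2] at h1
    exact absurd h1 (not_le.2 Cardinal.aleph0_lt_continuum)
  have h2 : ¬ Countable (ℕ → ℕ) := by
    have h2 : #(ℕ → ℕ) = 𝔠 := by simp
    intro h
    have h1 : #(ℕ → ℕ) ≤ ℵ₀ := Cardinal.mk_le_aleph0_iff.2 h
    rw [h2] at h1
    exact absurd h1 (not_le.2 Cardinal.aleph0_lt_continuum)
  let e : (ℕ → Bool) ≃ᵐ (ℕ → ℕ) := PolishSpace.measurableEquivOfNotCountable h1 h2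
  exact ⟨e, e.measurable, e.surjective⟩

/-- if a set has a Borel image equal to the Baire space, then it fails `S_fin(ℬ, ℬ)` -/
lemma not_Sfin {α : Type} [MeasurableSpace α] (Y : Set α) (Ψ : α → (ℕ → ℕ)) (hΨ : Measurable Ψ)
    (hs : ∀ g, ∃ y ∈ Y, Ψ y = g) : ¬ Sfin (BorelCovers Y) (BorelCovers Y) := by
  intro h
  let U : ℕ → ℕ → Set α := fun n m => {y | Ψ y n = m}
  obtain ⟨𝒱, h1, h2⟩ := h (fun n => range (U n)) (fun n => by
    refine ⟨⟨fun y _ => ⟨U n (Ψ y n), mem_range_self _, rfl⟩, ?_⟩, countable_range _, ?_⟩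
    · rintro _ ⟨m, rfl⟩ hsub
      obtain ⟨y, hy, hg⟩ := hs (fun _ => m + 1)
      have : Ψ y n = m := hsub hy
      rw [hg] at this
      exact absurd this (Nat.succ_ne_self m)
    · rintro _ ⟨m, rfl⟩
      have : Measurable (fun y => Ψ y n) := (measurable_pi_apply n).comp hΨ
      exact this (measurableSet_singleton m))
  have h3 : ∀ n, ∃ N : ℕ, ∀ m, U n m ∈ 𝒱 n → (∃ y, Ψ y n = m) → m ≤ N := by
    intro n
    have hfin : ((fun m => U n m) ⁻¹' (𝒱 n) ∩ {m | ∃ y, Ψ y n = m}).Finite := by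
      refine Set.Finite.of_finite_image ((h1 n).1.subset (t := (fun m => U n m) ''
        ((fun m => U n m) ⁻¹' (𝒱 n) ∩ {m | ∃ y, Ψ y n = m})) ?_) ?_
      · rintro _ ⟨m, hm, rfl⟩
        exact hm.1
      · rintro m ⟨-, y, hy⟩ m' ⟨-, -⟩ heq
        have : y ∈ U n m := hy
        simp only at heq
        rw [heq] at this
        exact hy.symm.trans this
    obtain ⟨N, hN⟩ := hfin.bddAbove
    exact ⟨N, fun m hm hy => hN ⟨hm, hy⟩⟩
  choose N hN using h3
  obtain ⟨y, hy, hg⟩ := hs (fun n => N n + 1)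
  obtain ⟨V, hV, hyV⟩ := h2.1.1 hy
  obtain ⟨n, hn⟩ := mem_iUnion.1 hV
  obtain ⟨m, rfl⟩ := (h1 n).2 hn
  have e1 : Ψ y n = m := hyV
  have e2 := hN n m hn ⟨y, e1⟩
  rw [← e1, hg] at e2
  exact absurd e2 (Nat.not_succ_le_self _)

lemma Sfin_of_S1 {α : Type} {𝔄 𝔅 : Set (Set (Set α))} (h : S1 𝔄 𝔅) : Sfin 𝔄 𝔅 := by
  intro 𝒰 h𝒰
  obtain ⟨U, h1, h2⟩ := h 𝒰 h𝒰
  refine ⟨fun n => {U n}, fun n => ⟨finite_singleton _, by simpa using h1 n⟩, ?_⟩
  rwa [iUnion_singleton_eq_range]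

lemma result_MA (hMA : MACountable) : ∃ X : Set ℝ,
    S1 (BorelOmegaCovers X) (BorelOmegaCovers X) ∧
    ∀ n, 2 ≤ n → ¬ S1 (BorelCovers (power X n)) (BorelCovers (power X n)) ∧
      ¬ Sfin (BorelCovers (power X n)) (BorelCovers (power X n)) ∧
      ∃ Ψ : (Fin n → ℝ) → (ℕ → ℕ), Measurable Ψ ∧ Ψ '' (power X n) = Set.univ := by
  obtain ⟨X, hX, Φ, hΦ, hs⟩ := main_real hMA
  obtain ⟨s, hsm, hss⟩ := exists_surj
  refine ⟨X, hX, fun n hn => ?_⟩
  let Ψ : (Fin n → ℝ) → (ℕ → ℕ) := fun v => s (Φ (v ⟨0, by omega⟩, v ⟨1, by omega⟩))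
  have hΨ : Measurable Ψ := hsm.comp (hΦ.comp (by fun_prop))
  have hsur : ∀ g, ∃ y ∈ power X n, Ψ y = g := by
    intro g
    obtain ⟨b, hb⟩ := hss g
    obtain ⟨x, hx, y, hy, hxy⟩ := hs b
    refine ⟨fun i => if i.1 = 0 then x else y, ?_, ?_⟩
    · intro i
      simp only
      split_ifs
      · exact hx
      · exact hy
    · simp [Ψ, hxy, hb]
  have hnot := not_Sfin (power X n) Ψ hΨ hsur
  refine ⟨fun h => hnot (Sfin_of_S1 h), hnot, Ψ, hΨ, ?_⟩
  rw [Set.eq_univ_iff_forall]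
  intro g
  obtain ⟨y, hy, h⟩ := hsur g
  exact ⟨y, hy, h⟩

end Pool.Agent.H46.BorelPow
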