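import Mathlib

set_option autoImplicit false

/-!
# Selection principles for Borel covers: definitions
-/

open scoped Cardinal

namespace Pool.Agent.H46.BorelPow

/-- A *cover* of `Y`: a family `𝒰` of sets with `Y ⊆ ⋃ 𝒰` and `Y ⊄ U` for every `U ∈ 𝒰`. -/
def IsCover {α : Type} (Y : Set α) (𝒰 : Set (Set α)) : Prop :=
  Y ⊆ ⋃₀ 𝒰 ∧ ∀ U ∈ 𝒰, ¬ Y ⊆ U

/-- `ℬ(Y)`: the countable covers of `Y` whose members are Borel sets. -/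
def BorelCovers {α : Type} [MeasurableSpace α] (Y : Set α) : Set (Set (Set α)) :=
  {𝒰 | IsCover Y 𝒰 ∧ 𝒰.Countable ∧ ∀ U ∈ 𝒰, MeasurableSet U}

/-- `ℬ_Ω(Y)`: the members `𝒰` of `ℬ(Y)` that are ω-covers: every finite `F ⊆ Y` is contained in
some member of `𝒰`. -/
def BorelOmegaCovers {α : Type} [MeasurableSpace α] (Y : Set α) : Set (Set (Set α)) :=
  {𝒰 | 𝒰 ∈ BorelCovers Y ∧ ∀ F : Set α, F.Finite → F ⊆ Y → ∃ U ∈ 𝒰, F ⊆ U}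

/-- The selection principle `S₁(𝔄, 𝔅)`: for every sequence `𝒰 n ∈ 𝔄` one can choose
`U n ∈ 𝒰 n` such that `{U n : n ∈ ℕ} ∈ 𝔅`. -/
def S1 {α : Type} (𝔄 𝔅 : Set (Set (Set α))) : Prop :=
  ∀ 𝒰 : ℕ → Set (Set α), (∀ n, 𝒰 n ∈ 𝔄) →
    ∃ U : ℕ → Set α, (∀ n, U n ∈ 𝒰 n) ∧ Set.range U ∈ 𝔅

/-- The selection principle `S_fin(𝔄, 𝔅)`: for every sequence `𝒰 n ∈ 𝔄` one can choose
finite sets `𝒱 n ⊆ 𝒰 n` such that `⋃ n, 𝒱 n ∈ 𝔅`. -/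
def Sfin {α : Type} (𝔄 𝔅 : Set (Set (Set α))) : Prop :=
  ∀ 𝒰 : ℕ → Set (Set α), (∀ n, 𝒰 n ∈ 𝔄) →
    ∃ 𝒱 : ℕ → Set (Set α), (∀ n, (𝒱 n).Finite ∧ 𝒱 n ⊆ 𝒰 n) ∧ (⋃ n, 𝒱 n) ∈ 𝔅

/-- The power `X^n ⊆ ℝ^n`. -/
def power (X : Set ℝ) (n : ℕ) : Set (Fin n → ℝ) := {v | ∀ i, v i ∈ X}

/-- Martin's axiom for countable posets: fewer than continuum many cofinal sets can be met. -/
def MACountable : Prop :=
  ∀ (Q : Type) [Preorder Q] [Countable Q] [Nonempty Q] (ι : Type) (_ : #ι < 𝔠)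
    (D : ι → Order.Cofinal Q), ∃ I : Order.Ideal Q, ∀ i, ∃ q ∈ (D i).carrier, q ∈ I

end Pool.Agent.H46.BorelPow
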